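import Mathlib

set_option autoImplicit false

/-! L-shaped drawings of rooted binary trees on integer point sets. -/

namespace Pool.Agent.Helper124

/-- integer points -/
abbrev Pt := ℤ × ℤ

/-- rooted binary tree with labels -/
inductive BT (V : Type) : Type
  | nil : BT V
  | node (a : V) (l r : BT V) : BT V

/-- drawn tree: label, position, orientation of the edge to the parent
(`true`: the parent carries the horizontal arm). -/
inductive DT (V : Type) : Type
  | nil : DT V
  | node (a : V) (p : Pt) (o : Bool) (l r : DT V) : DT V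

variable {V : Type}

namespace BT

def size : BT V → ℕ
  | nil => 0
  | node _ l r => l.size + r.size + 1

def labels : BT V → List V
  | nil => []
  | node a l r => a :: (l.labels ++ r.labels)

/-- root has at most one child -/
def thin : BT V → Prop
  | nil => True
  | node _ l r => l = nil ∨ r = nil

/-- every vertex has at most one child with two children -/
def Cls : BT V → Prop
  | nil => True
  | node _ l r => l.Cls ∧ r.Cls ∧ (l.thin ∨ r.thin)

end BT

namespace DT

def skel : DT V → BT V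
  | nil => .nil
  | node a _ _ l r => .node a l.skel r.skel

def pts : DT V → List Pt
  | nil => []
  | node _ p _ l r => p :: (l.pts ++ r.pts)

/-- edge from parent position `q` to child position `p` -/
def mk (o : Bool) (q p : Pt) : Pt × Pt := if o then (q, p) else (p, q)

/-- all edges, including the edge to the parent at `q` -/
def edges : Pt → DT V → List (Pt × Pt)
  | _, nil => []
  | q, node _ p o l r => mk o q p :: (l.edges p ++ r.edges p)

/-- transform the drawing -/
def map (φ : Pt → Pt) (b : Bool) : DT V → DT V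
  | nil => nil
  | node a p o l r => node a (φ p) (xor b o) (l.map φ b) (r.map φ b)

/-- swap children -/
def swap : DT V → DT V
  | nil => nil
  | node a p o l r => node a p o r l

@[simp] theorem skel_map (φ : Pt → Pt) (b : Bool) (D : DT V) : (D.map φ b).skel = D.skel := by
  induction D with
  | nil => rfl
  | node a p o l r hl hr => simp [map, skel, hl, hr]

@[simp] theorem pts_map (φ : Pt → Pt) (b : Bool) (D : DT V) :
    (D.map φ b).pts = D.pts.map φ := by
  induction D with
  | nil => rfl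
  | node a p o l r hl hr => simp [map, pts, hl, hr]

/-- transform an edge -/
def emap (φ : Pt → Pt) (b : Bool) (e : Pt × Pt) : Pt × Pt :=
  if b then (φ e.2, φ e.1) else (φ e.1, φ e.2)

theorem emap_mk (φ : Pt → Pt) (b o : Bool) (q p : Pt) :
    emap φ b (mk o q p) = mk (xor b o) (φ q) (φ p) := by
  cases b <;> cases o <;> rfl

@[simp] theorem edges_map (φ : Pt → Pt) (b : Bool) (D : DT V) (q : Pt) :
    (D.map φ b).edges (φ q) = (D.edges q).map (emap φ b) := by
  induction D generalizing q with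
  | nil => rfl
  | node a p o l r hl hr => simp [map, edges, hl, hr, emap_mk]

end DT

section NC

variable {α : Type} [LinearOrder α]

/-- horizontal arm of `e` strictly crosses the vertical arm of `f` -/
def Cross (e f : (α × α) × (α × α)) : Prop :=
  ((e.1.1 < f.2.1 ∧ f.2.1 < e.2.1) ∨ (e.2.1 < f.2.1 ∧ f.2.1 < e.1.1)) ∧
  ((f.2.2 < e.1.2 ∧ e.1.2 < f.1.2) ∨ (f.1.2 < e.1.2 ∧ e.1.2 < f.2.2))

/-- the two edges do not conflict. An edge is `(h, v)`: `h` has the horizontal arm,
`v` the vertical arm, the bend is at `(v.1, h.2)`. -/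
def NC (e f : (α × α) × (α × α)) : Prop :=
  (e.1.2 = f.1.2 → ¬ (e.1.1 < e.2.1 ∧ f.1.1 < f.2.1) ∧ ¬ (e.2.1 < e.1.1 ∧ f.2.1 < f.1.1)) ∧
  (e.2.1 = f.2.1 → ¬ (e.2.2 < e.1.2 ∧ f.2.2 < f.1.2) ∧ ¬ (e.1.2 < e.2.2 ∧ f.1.2 < f.2.2)) ∧
  ¬ Cross e f ∧ ¬ Cross f e

theorem NC.symm {e f : (α × α) × (α × α)} (h : NC e f) : NC f e := by
  obtain ⟨h1, h2, h3, h4⟩ := h
  refine ⟨fun h => ?_, fun h => ?_, h4, h3⟩
  · have := h1 h.symm; tauto
  · have := h2 h.symm; tauto

end NC

/-- general position -/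
def GP (R : Finset Pt) : Prop := ∀ a ∈ R, ∀ b ∈ R, a ≠ b → a.1 ≠ b.1 ∧ a.2 ≠ b.2

theorem GP.mono {R S : Finset Pt} (h : GP S) (hRS : R ⊆ S) : GP R :=
  fun a ha b hb hab => h a (hRS ha) b (hRS hb) hab

/-- Drawing of `t` on exactly the points of `R`, attached to `p`; `ok o z` says that the
edge from `p` to the root position `z` with orientation `o` is allowed. -/
def Emb (t : BT V) (p : Pt) (R : Finset Pt) (ok : Bool → Pt → Prop) : Prop :=
  ∃ D : DT V, D.skel = t ∧ D.pts.Nodup ∧ D.pts.toFinset = R ∧ (D.edges p).Pairwise NC ∧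
    ∀ e ∈ D.edges p, (e.1 ∈ R ∧ e.2 ∈ R) ∨ (∃ z ∈ R, ∃ o, ok o z ∧ e = DT.mk o p z)

/-- a symmetry of the plane used for drawings -/
structure Sym where
  φ : Pt → Pt
  b : Bool
  invol : ∀ q, φ (φ q) = q
  nc : ∀ e f, NC e f → NC (DT.emap φ b e) (DT.emap φ b f)

def negX : Sym where
  φ q := (-q.1, q.2)
  b := false
  invol q := by simp
  nc e f h := by
    unfold NC Cross DT.emap at *
    simp only [Bool.false_eq_true, if_false]
    omega

def negY : Sym where
  φ q := (q.1, -q.2)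
  b := false
  invol q := by simp
  nc e f h := by
    unfold NC Cross DT.emap at *
    simp only [Bool.false_eq_true, if_false]
    omega

def tr : Sym where
  φ q := (q.2, q.1)
  b := true
  invol q := by simp
  nc e f h := by
    unfold NC Cross DT.emap at *
    simp only [if_true]
    omega

theorem Sym.inj (s : Sym) : Function.Injective s.φ := fun a b h => by
  rw [← s.invol a, h, s.invol]

/-- transport an embedding along a symmetry -/
theorem Emb.sym {t : BT V} {p : Pt} {R : Finset Pt} {ok : Bool → Pt → Prop} (s : Sym)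
    (h : Emb t (s.φ p) (R.image s.φ) ok) :
    Emb t p R (fun o z => ok (xor s.b o) (s.φ z)) := by
  obtain ⟨D, h1, h2, h3, h4, h5⟩ := h
  have hmem : ∀ z, z ∈ R.image s.φ ↔ s.φ z ∈ R := by
    intro z
    constructor
    · intro hz
      obtain ⟨w, hw, rfl⟩ := Finset.mem_image.mp hz
      rw [s.invol]; exact hw
    · intro hz
      exact Finset.mem_image.mpr ⟨_, hz, s.invol z⟩
  refine ⟨D.map s.φ s.b, by simpa using h1, ?_, ?_, ?_, ?_⟩
  · rw [DT.pts_map]; exact h2.map s.inj
  · rw [DT.pts_map]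
    ext z
    have : z ∈ R ↔ s.φ z ∈ D.pts.toFinset := by rw [h3, hmem, s.invol]
    rw [this]
    simp only [List.mem_toFinset, List.mem_map]
    constructor
    · rintro ⟨w, hw, rfl⟩; rw [s.invol]; exact hw
    · intro hz; exact ⟨_, hz, s.invol z⟩
  · have : p = s.φ (s.φ p) := (s.invol p).symm
    rw [this, DT.edges_map, List.pairwise_map]
    exact h4.imp (fun {a b} hab => s.nc a b hab)
  · intro e he
    have hp : p = s.φ (s.φ p) := (s.invol p).symm
    rw [hp, DT.edges_map, List.mem_map] at he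
    obtain ⟨e', he', rfl⟩ := he
    rcases h5 e' he' with ⟨h6, h7⟩ | ⟨z, hz, o, ho, rfl⟩
    · left
      rw [hmem] at h6 h7
      unfold DT.emap
      cases s.b <;> simp [h6, h7]
    · right
      refine ⟨s.φ z, (hmem z).mp hz, xor s.b o, ?_, ?_⟩
      · show ok (xor s.b (xor s.b o)) (s.φ (s.φ z))
        rw [s.invol]
        cases s.b <;> simpa using ho
      · rw [DT.emap_mk, s.invol]

theorem Emb.mono {t : BT V} {p : Pt} {R : Finset Pt} {ok ok' : Bool → Pt → Prop}
    (h : Emb t p R ok) (hok : ∀ o, ∀ z ∈ R, ok o z → ok' o z) : Emb t p R ok' := by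
  obtain ⟨D, h1, h2, h3, h4, h5⟩ := h
  refine ⟨D, h1, h2, h3, h4, fun e he => ?_⟩
  rcases h5 e he with h6 | ⟨z, hz, o, ho, h7⟩
  · exact Or.inl h6
  · exact Or.inr ⟨z, hz, o, hok o z hz ho, h7⟩

theorem Emb.nil (p : Pt) (ok : Bool → Pt → Prop) : Emb (BT.nil : BT V) p ∅ ok :=
  ⟨DT.nil, rfl, by simp [DT.pts], by simp [DT.pts], by simp [DT.edges], by simp [DT.edges]⟩

/-- Assembling a drawing from the drawings of the two branches. -/
theorem Emb.glue {a : V} {l r : BT V} {p z : Pt} {R A B : Finset Pt}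
    {okA okB ok : Bool → Pt → Prop} (o : Bool)
    (hA : Emb l z A okA) (hB : Emb r z B okB)
    (hR : insert z (A ∪ B) = R) (hzA : z ∉ A) (hzB : z ∉ B) (hAB : Disjoint A B)
    (hok : ok o z)
    (c1 : ∀ x ∈ A, ∀ y ∈ A, NC (DT.mk o p z) (x, y))
    (c2 : ∀ x ∈ A, ∀ u, okA u x → NC (DT.mk o p z) (DT.mk u z x))
    (c3 : ∀ x ∈ B, ∀ y ∈ B, NC (DT.mk o p z) (x, y))
    (c4 : ∀ x ∈ B, ∀ u, okB u x → NC (DT.mk o p z) (DT.mk u z x))
    (c5 : ∀ x ∈ A, ∀ y ∈ A, ∀ x' ∈ B, ∀ y' ∈ B, NC (x, y) (x', y'))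
    (c6 : ∀ x ∈ A, ∀ y ∈ A, ∀ x' ∈ B, ∀ u, okB u x' → NC (x, y) (DT.mk u z x'))
    (c7 : ∀ x ∈ A, ∀ u, okA u x → ∀ x' ∈ B, ∀ y' ∈ B, NC (DT.mk u z x) (x', y'))
    (c8 : ∀ x ∈ A, ∀ u, okA u x → ∀ x' ∈ B, ∀ u', okB u' x' →
      NC (DT.mk u z x) (DT.mk u' z x')) :
    Emb (BT.node a l r) p R ok := by
  obtain ⟨D, h1, h2, h3, h4, h5⟩ := hA
  obtain ⟨E, k1, k2, k3, k4, k5⟩ := hB
  have memA : ∀ x, x ∈ D.pts ↔ x ∈ A := by
    intro x; rw [← h3]; simp
  have memB : ∀ x, x ∈ E.pts ↔ x ∈ B := by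
    intro x; rw [← k3]; simp
  refine ⟨DT.node a z o D E, by simp [DT.skel, h1, k1], ?_, ?_, ?_, ?_⟩
  · simp only [DT.pts, List.nodup_cons, List.mem_append, memA, memB, List.nodup_append]
    refine ⟨by tauto, h2, k2, ?_⟩
    intro x hx y hy hxy
    subst hxy
    exact (Finset.disjoint_left.mp hAB) hx hy
  · simp only [DT.pts, List.toFinset_cons, List.toFinset_append, h3, k3, hR]
  · simp only [DT.edges, List.pairwise_cons, List.pairwise_append, List.mem_append]
    refine ⟨?_, h4, k4, ?_⟩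
    · intro e he
      rcases he with he | he
      · rcases h5 e he with ⟨h6, h7⟩ | ⟨x, hx, u, hu, rfl⟩
        · exact c1 e.1 h6 e.2 h7
        · exact c2 x hx u hu
      · rcases k5 e he with ⟨h6, h7⟩ | ⟨x, hx, u, hu, rfl⟩
        · exact c3 e.1 h6 e.2 h7
        · exact c4 x hx u hu
    · intro e he f hf
      rcases h5 e he with ⟨h6, h7⟩ | ⟨x, hx, u, hu, rfl⟩
      · rcases k5 f hf with ⟨h6', h7'⟩ | ⟨x', hx', u', hu', rfl⟩
        · exact c5 e.1 h6 e.2 h7 f.1 h6' f.2 h7'
        · exact c6 e.1 h6 e.2 h7 x' hx' u' hu'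
      · rcases k5 f hf with ⟨h6', h7'⟩ | ⟨x', hx', u', hu', rfl⟩
        · exact c7 x hx u hu f.1 h6' f.2 h7'
        · exact c8 x hx u hu x' hx' u' hu'
  · have hzR : z ∈ R := by rw [← hR]; simp
    have hAR : ∀ x ∈ A, x ∈ R := by intro x hx; rw [← hR]; simp [hx]
    have hBR : ∀ x ∈ B, x ∈ R := by intro x hx; rw [← hR]; simp [hx]
    have key : ∀ x ∈ R, ∀ u, (DT.mk u z x).1 ∈ R ∧ (DT.mk u z x).2 ∈ R := by
      intro x hx u
      cases u <;> simp [DT.mk, hx, hzR]
    intro e he
    simp only [DT.edges, List.mem_cons, List.mem_append] at he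
    rcases he with rfl | he | he
    · exact Or.inr ⟨z, hzR, o, hok, rfl⟩
    · rcases h5 e he with ⟨h6, h7⟩ | ⟨x, hx, u, hu, rfl⟩
      · exact Or.inl ⟨hAR _ h6, hAR _ h7⟩
      · exact Or.inl (key x (hAR x hx) u)
    · rcases k5 e he with ⟨h6, h7⟩ | ⟨x, hx, u, hu, rfl⟩
      · exact Or.inl ⟨hBR _ h6, hBR _ h7⟩
      · exact Or.inl (key x (hBR x hx) u)

/-- swapping the two branches -/
theorem Emb.swap {a : V} {l r : BT V} {p : Pt} {R : Finset Pt} {ok : Bool → Pt → Prop}
    (h : Emb (BT.node a l r) p R ok) : Emb (BT.node a r l) p R ok := by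
  obtain ⟨D, h1, h2, h3, h4, h5⟩ := h
  cases D with
  | nil => simp [DT.skel] at h1
  | node a' q o D E =>
    simp only [DT.skel, BT.node.injEq] at h1
    obtain ⟨rfl, rfl, rfl⟩ := h1
    have hp : (DT.node a' q o E D).pts.Perm (DT.node a' q o D E).pts := by
      simp only [DT.pts]
      exact List.Perm.cons _ List.perm_append_comm
    have hq : ((DT.node a' q o E D).edges p).Perm ((DT.node a' q o D E).edges p) := by
      simp only [DT.edges]
      exact List.Perm.cons _ List.perm_append_comm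
    refine ⟨DT.node a' q o E D, by simp [DT.skel], ?_, ?_, ?_, ?_⟩
    · exact hp.nodup_iff.mpr h2
    · rw [← h3]; ext x; simp only [List.mem_toFinset]; exact hp.mem_iff
    · exact (hq.pairwise_iff (fun {a b} hab => NC.symm hab)).mpr h4
    · intro e he; exact h5 e (hq.mem_iff.mp he)

end Pool.Agent.Helper124
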