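import Pool.Agent.Helper124_LShape.Basic

set_option autoImplicit false

/-! A finite tree rooted at a vertex, as a labelled binary tree. -/

namespace Pool.Agent.Helper124

variable {V : Type}

/-- parent-child pairs, including the pair (q, root) -/
def BT.pcs : V → BT V → List (V × V)
  | _, .nil => []
  | q, .node a l r => (q, a) :: (l.pcs a ++ r.pcs a)

/-- parent-child pairs inside the tree -/
def BT.ipcs : BT V → List (V × V)
  | .nil => []
  | .node a l r => l.pcs a ++ r.pcs a

theorem tree_unique_parent {T : SimpleGraph V} (hT : T.IsTree) (ρ u u' w : V)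
    (h1 : T.Adj u w) (h2 : T.Adj u' w) (d1 : T.dist ρ w = T.dist ρ u + 1)
    (d2 : T.dist ρ w = T.dist ρ u' + 1) : u = u' := by
  obtain ⟨p, hp, hl⟩ := hT.connected.exists_path_of_dist ρ u
  obtain ⟨q, hq, hl'⟩ := hT.connected.exists_path_of_dist ρ u'
  have e1 : (p.concat h1).IsPath := by
    apply SimpleGraph.Walk.isPath_of_length_eq_dist
    rw [SimpleGraph.Walk.length_concat]; omega
  have e2 : (q.concat h2).IsPath := by
    apply SimpleGraph.Walk.isPath_of_length_eq_dist
    rw [SimpleGraph.Walk.length_concat]; omega
  have := (hT.existsUnique_path ρ w).unique e1 e2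
  have h3 := congrArg SimpleGraph.Walk.penultimate this
  simpa using h3

theorem tree_exists_parent {T : SimpleGraph V} (hT : T.IsTree) (ρ w : V) (hw : w ≠ ρ) :
    ∃ u, T.Adj u w ∧ T.dist ρ w = T.dist ρ u + 1 := by
  obtain ⟨p, hp, hl⟩ := hT.connected.exists_path_of_dist ρ w
  have hnil : ¬ p.Nil := by
    intro h
    exact hw h.eq.symm
  refine ⟨p.penultimate, p.adj_penultimate hnil, ?_⟩
  have hadj := p.adj_penultimate hnil
  rcases hT.dist_eq_dist_add_one_of_adj ρ hadj with h | h
  · exfalso
    have h2 : T.dist ρ p.penultimate ≤ p.dropLast.length := SimpleGraph.dist_le _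
    have h3 : p.dropLast.length ≤ p.length := by
      simp
    omega
  · exact h

/-- child relation of the tree rooted at `ρ` -/
def Ch (T : SimpleGraph V) (ρ v w : V) : Prop := T.Adj v w ∧ T.dist ρ w = T.dist ρ v + 1

theorem desc_dist {T : SimpleGraph V} {ρ a w : V} (h : Relation.ReflTransGen (Ch T ρ) a w) :
    T.dist ρ a ≤ T.dist ρ w := by
  induction h with
  | refl => exact le_rfl
  | tail _ h ih => have := h.2; omega

theorem desc_unique {T : SimpleGraph V} (hT : T.IsTree) {ρ a b w : V}
    (h : Relation.ReflTransGen (Ch T ρ) a w) (h' : Relation.ReflTransGen (Ch T ρ) b w)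
    (hd : T.dist ρ a = T.dist ρ b) : a = b := by
  induction h generalizing b with
  | refl =>
    rcases Relation.ReflTransGen.cases_tail h' with rfl | ⟨c, hc, hc'⟩
    · rfl
    · have := desc_dist hc; have := hc'.2; omega
  | tail h1 h2 ih =>
    rename_i x y
    rcases Relation.ReflTransGen.cases_tail h' with rfl | ⟨c, hc, hc'⟩
    · have := desc_dist h1; have := h2.2; omega
    · have : c = x := tree_unique_parent hT ρ c x y hc'.1 h2.1 hc'.2 h2.2
      subst this
      exact ih hc hd

theorem desc_root {T : SimpleGraph V} (hT : T.IsTree) (ρ w : V) :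
    Relation.ReflTransGen (Ch T ρ) ρ w := by
  induction h : T.dist ρ w using Nat.strong_induction_on generalizing w with
  | _ n ih =>
    by_cases hw : w = ρ
    · subst hw; exact Relation.ReflTransGen.refl
    · obtain ⟨u, hu, hd⟩ := tree_exists_parent hT ρ w hw
      exact (ih (T.dist ρ u) (by omega) u rfl).tail ⟨hu, hd⟩

/-- the rooted binary tree below `v` -/
theorem exists_bt [Finite V] {T : SimpleGraph V} (hT : T.IsTree) (ρ : V)
    (h2 : ∀ v, {w | Ch T ρ v w}.ncard ≤ 2)
    (hcls : ∀ v a b, Ch T ρ v a → Ch T ρ v b → a ≠ b →
      {w | Ch T ρ a w}.ncard ≤ 1 ∨ {w | Ch T ρ b w}.ncard ≤ 1)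
    (M : ℕ) (hM : ∀ v, T.dist ρ v ≤ M) (k : ℕ) (v : V) (hk : M - T.dist ρ v ≤ k) :
    ∃ t : BT V, (∃ l r, t = BT.node v l r) ∧ t.labels.Nodup ∧
      (∀ w, w ∈ t.labels ↔ Relation.ReflTransGen (Ch T ρ) v w) ∧
      (∀ x y, Relation.ReflTransGen (Ch T ρ) v x → Ch T ρ x y → (x, y) ∈ t.ipcs) ∧
      t.Cls ∧ ({w | Ch T ρ v w}.ncard ≤ 1 → t.thin) := by
  induction k generalizing v with
  | zero =>
    have hno : ∀ w, ¬ Ch T ρ v w := by
      intro w hw
      have := hM w; have := hw.2; omega
    refine ⟨BT.node v .nil .nil, ⟨_, _, rfl⟩, by simp [BT.labels], ?_, ?_, ?_, ?_⟩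
    · intro w
      simp only [BT.labels, List.append_nil, List.mem_singleton]
      constructor
      · rintro rfl; exact Relation.ReflTransGen.refl
      · intro h
        rcases Relation.ReflTransGen.cases_head h with rfl | ⟨c, hc, _⟩
        · rfl
        · exact absurd hc (hno c)
    · intro x y hx hxy
      exfalso
      rcases Relation.ReflTransGen.cases_head hx with rfl | ⟨c, hc, _⟩
      · exact hno y hxy
      · exact hno c hc
    · simp [BT.Cls, BT.thin]
    · intro _; left; rfl
  | succ k ih =>
    have hfin : {w | Ch T ρ v w}.Finite := Set.toFinite _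
    have key : ∀ a, Ch T ρ v a → M - T.dist ρ a ≤ k := by
      intro a ha; have := ha.2; have := hM a; omega
    have hcard := h2 v
    interval_cases hc : {w | Ch T ρ v w}.ncard
    · -- no child
      have hno : ∀ w, ¬ Ch T ρ v w := by
        rw [Set.ncard_eq_zero hfin] at hc
        intro w hw
        have : w ∈ {w | Ch T ρ v w} := hw
        rw [hc] at this; exact this
      refine ⟨BT.node v .nil .nil, ⟨_, _, rfl⟩, by simp [BT.labels], ?_, ?_, ?_, ?_⟩
      · intro w
        simp only [BT.labels, List.append_nil, List.mem_singleton]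
        constructor
        · rintro rfl; exact Relation.ReflTransGen.refl
        · intro h
          rcases Relation.ReflTransGen.cases_head h with rfl | ⟨c, hc, _⟩
          · rfl
          · exact absurd hc (hno c)
      · intro x y hx hxy
        exfalso
        rcases Relation.ReflTransGen.cases_head hx with rfl | ⟨c, hc, _⟩
        · exact hno y hxy
        · exact hno c hc
      · simp [BT.Cls, BT.thin]
      · intro _; left; rfl
    · -- one child
      obtain ⟨a, ha⟩ := Set.ncard_eq_one.mp hc
      have hch : ∀ w, Ch T ρ v w ↔ w = a := by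
        intro w
        have : w ∈ {w | Ch T ρ v w} ↔ w ∈ ({a} : Set V) := by rw [ha]
        simpa using this
      have hva : Ch T ρ v a := (hch a).mpr rfl
      obtain ⟨t, ⟨l, r, htt⟩, t1, t2, t3, t4, t5⟩ := ih a (key a hva)
      refine ⟨BT.node v t .nil, ⟨_, _, rfl⟩, ?_, ?_, ?_, ?_, ?_⟩
      · simp only [BT.labels, List.append_nil, List.nodup_cons]
        refine ⟨?_, t1⟩
        intro hv
        have := desc_dist ((t2 v).mp hv); have := hva.2; omega
      · intro w
        simp only [BT.labels, List.append_nil, List.mem_cons, t2]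
        constructor
        · rintro (rfl | h)
          · exact Relation.ReflTransGen.refl
          · exact Relation.ReflTransGen.head hva h
        · intro h
          rcases Relation.ReflTransGen.cases_head h with rfl | ⟨c, hc, hc'⟩
          · left; rfl
          · right; rw [hch] at hc; subst hc; exact hc'
      · intro x y hx hxy
        have hsub : ∀ e, e ∈ t.ipcs → e ∈ t.pcs v := by
          intro e he
          rw [htt] at he ⊢
          exact List.mem_cons_of_mem _ he
        simp only [BT.ipcs, BT.pcs, List.append_nil]
        rcases Relation.ReflTransGen.cases_head hx with rfl | ⟨c, hc, hc'⟩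
        · rw [hch] at hxy; subst hxy
          rw [htt]; exact List.mem_cons_self
        · rw [hch] at hc; subst hc
          exact hsub _ (t3 x y hc' hxy)
      · exact ⟨t4, trivial, Or.inr trivial⟩
      · intro _; right; rfl
    · -- two children
      obtain ⟨a, b, hab, hset⟩ := Set.ncard_eq_two.mp hc
      have hch : ∀ w, Ch T ρ v w ↔ w = a ∨ w = b := by
        intro w
        have : w ∈ {w | Ch T ρ v w} ↔ w ∈ ({a, b} : Set V) := by rw [hset]
        simpa using this
      have hva : Ch T ρ v a := (hch a).mpr (Or.inl rfl)
      have hvb : Ch T ρ v b := (hch b).mpr (Or.inr rfl)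
      obtain ⟨t, ⟨l, r, htt⟩, t1, t2, t3, t4, t5⟩ := ih a (key a hva)
      obtain ⟨s, ⟨l', r', hss⟩, s1, s2, s3, s4, s5⟩ := ih b (key b hvb)
      refine ⟨BT.node v t s, ⟨_, _, rfl⟩, ?_, ?_, ?_, ?_, ?_⟩
      · simp only [BT.labels, List.nodup_cons, List.mem_append, List.nodup_append]
        refine ⟨?_, t1, s1, ?_⟩
        · rintro (hv | hv)
          · have := desc_dist ((t2 v).mp hv); have := hva.2; omega
          · have := desc_dist ((s2 v).mp hv); have := hvb.2; omega
        · intro x hx y hy hxy
          subst hxy
          exact hab (desc_unique hT ((t2 x).mp hx) ((s2 x).mp hy) (by rw [hva.2, hvb.2]))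
      · intro w
        simp only [BT.labels, List.mem_append, List.mem_cons, t2, s2]
        constructor
        · rintro (rfl | h | h)
          · exact Relation.ReflTransGen.refl
          · exact Relation.ReflTransGen.head hva h
          · exact Relation.ReflTransGen.head hvb h
        · intro h
          rcases Relation.ReflTransGen.cases_head h with rfl | ⟨c, hc, hc'⟩
          · left; rfl
          · right
            rw [hch] at hc
            rcases hc with rfl | rfl
            · exact Or.inl hc'
            · exact Or.inr hc'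
      · intro x y hx hxy
        have hsub : ∀ e, e ∈ t.ipcs → e ∈ t.pcs v := by
          intro e he
          rw [htt] at he ⊢
          exact List.mem_cons_of_mem _ he
        have hsub' : ∀ e, e ∈ s.ipcs → e ∈ s.pcs v := by
          intro e he
          rw [hss] at he ⊢
          exact List.mem_cons_of_mem _ he
        simp only [BT.ipcs, List.mem_append]
        rcases Relation.ReflTransGen.cases_head hx with rfl | ⟨c, hc, hc'⟩
        · rw [hch] at hxy
          rcases hxy with rfl | rfl
          · left; rw [htt]; exact List.mem_cons_self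
          · right; rw [hss]; exact List.mem_cons_self
        · rw [hch] at hc
          rcases hc with rfl | rfl
          · exact Or.inl (hsub _ (t3 x y hc' hxy))
          · exact Or.inr (hsub' _ (s3 x y hc' hxy))
      · refine ⟨t4, s4, ?_⟩
        rcases hcls v a b hva hvb hab with h | h
        · exact Or.inl (t5 h)
        · exact Or.inr (s5 h)
      · intro h; omega

end Pool.Agent.Helper124
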