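import Pool.Agent.Helper124_LShape.Induct
import Pool.Agent.Helper124_LShape.Rooted

set_option autoImplicit false

/-! From a drawing of a labelled binary tree on integer points to a drawing of a graph. -/

namespace Pool.Agent.Helper124

variable {V : Type}

/-- `pos` gives the positions of the labels in the drawing -/
def DT.Rep (pos : V → Pt) : DT V → Prop
  | .nil => True
  | .node a p _ l r => pos a = p ∧ l.Rep pos ∧ r.Rep pos

theorem DT.Rep.congr {pos pos' : V → Pt} (D : DT V) (h : D.Rep pos)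
    (hh : ∀ v ∈ D.skel.labels, pos v = pos' v) : D.Rep pos' := by
  induction D with
  | nil => trivial
  | node a p o l r hl hr =>
    simp only [DT.skel, BT.labels, List.mem_cons, List.mem_append] at hh
    refine ⟨?_, hl h.2.1 (fun v hv => hh v (Or.inr (Or.inl hv))),
      hr h.2.2 (fun v hv => hh v (Or.inr (Or.inr hv)))⟩
    rw [← hh a (Or.inl rfl)]; exact h.1

theorem DT.exists_rep (D : DT V) (h : D.skel.labels.Nodup) : ∃ pos : V → Pt, D.Rep pos := by
  classical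
  induction D with
  | nil => exact ⟨fun _ => (0, 0), trivial⟩
  | node a p o l r hl hr =>
    simp only [DT.skel, BT.labels, List.nodup_cons, List.mem_append, List.nodup_append] at h
    obtain ⟨h1, h2, h3, h4⟩ := h
    obtain ⟨f, hf⟩ := hl h2
    obtain ⟨g, hg⟩ := hr h3
    refine ⟨fun v => if v = a then p else if v ∈ l.skel.labels then f v else g v, ?_, ?_, ?_⟩
    · simp
    · refine DT.Rep.congr l hf (fun v hv => ?_)
      have : v ≠ a := fun e => h1 (Or.inl (e ▸ hv))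
      simp [this, hv]
    · refine DT.Rep.congr r hg (fun v hv => ?_)
      have h5 : v ≠ a := fun e => h1 (Or.inr (e ▸ hv))
      have h6 : v ∉ l.skel.labels := fun h => h4 v h v hv rfl
      simp [h5, h6]

theorem DT.Rep.pts {pos : V → Pt} (D : DT V) (h : D.Rep pos) :
    D.pts = D.skel.labels.map pos := by
  induction D with
  | nil => rfl
  | node a p o l r hl hr =>
    simp only [DT.pts, DT.skel, BT.labels, List.map_cons, List.map_append, hl h.2.1, hr h.2.2, h.1]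

theorem DT.Rep.edges {pos : V → Pt} (D : DT V) (h : D.Rep pos) (q : V) :
    ∀ e ∈ D.skel.pcs q, ∃ o, DT.mk o (pos e.1) (pos e.2) ∈ D.edges (pos q) := by
  induction D generalizing q with
  | nil => simp [DT.skel, BT.pcs]
  | node a p o l r hl hr =>
    intro e he
    simp only [DT.skel, BT.pcs, List.mem_cons, List.mem_append] at he
    have hp := h.1
    rcases he with rfl | he | he
    · refine ⟨o, ?_⟩
      simp only [DT.edges, hp]
      exact List.mem_cons_self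
    · obtain ⟨u, hu⟩ := hl h.2.1 a e he
      refine ⟨u, ?_⟩
      simp only [DT.edges, List.mem_cons, List.mem_append]
      rw [hp] at hu
      exact Or.inr (Or.inl hu)
    · obtain ⟨u, hu⟩ := hr h.2.2 a e he
      refine ⟨u, ?_⟩
      simp only [DT.edges, List.mem_cons, List.mem_append]
      rw [hp] at hu
      exact Or.inr (Or.inr hu)

theorem DT.Rep.iedges {pos : V → Pt} (D : DT V) (h : D.Rep pos) (q : Pt) :
    ∀ e ∈ D.skel.ipcs, ∃ o, DT.mk o (pos e.1) (pos e.2) ∈ D.edges q := by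
  cases D with
  | nil => simp [DT.skel, BT.ipcs]
  | node a p o l r =>
    intro e he
    simp only [DT.skel, BT.ipcs, List.mem_append] at he
    have hp := h.1
    rcases he with he | he
    · obtain ⟨u, hu⟩ := DT.Rep.edges l h.2.1 a e he
      refine ⟨u, ?_⟩
      simp only [DT.edges, List.mem_cons, List.mem_append]
      rw [hp] at hu
      exact Or.inr (Or.inl hu)
    · obtain ⟨u, hu⟩ := DT.Rep.edges r h.2.2 a e he
      refine ⟨u, ?_⟩
      simp only [DT.edges, List.mem_cons, List.mem_append]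
      rw [hp] at hu
      exact Or.inr (Or.inr hu)

/-- bounding box of a segment in the plane -/
theorem seg_box {p q x : ℝ × ℝ} (h : x ∈ segment ℝ p q) :
    (min p.1 q.1 ≤ x.1 ∧ x.1 ≤ max p.1 q.1) ∧ (min p.2 q.2 ≤ x.2 ∧ x.2 ≤ max p.2 q.2) := by
  obtain ⟨a, b, ha, hb, hab, rfl⟩ := h
  simp only [Prod.fst_add, Prod.smul_fst, smul_eq_mul, Prod.snd_add, Prod.smul_snd]
  have ha' : a = 1 - b := by linarith
  subst ha'
  refine ⟨⟨?_, ?_⟩, ⟨?_, ?_⟩⟩
  · rcases le_total p.1 q.1 with h | h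
    · rw [min_eq_left h]; nlinarith
    · rw [min_eq_right h]; nlinarith
  · rcases le_total p.1 q.1 with h | h
    · rw [max_eq_right h]; nlinarith
    · rw [max_eq_left h]; nlinarith
  · rcases le_total p.2 q.2 with h | h
    · rw [min_eq_left h]; nlinarith
    · rw [min_eq_right h]; nlinarith
  · rcases le_total p.2 q.2 with h | h
    · rw [max_eq_right h]; nlinarith
    · rw [max_eq_left h]; nlinarith

/-- the point `x` is on the horizontal or the vertical arm of the edge `(h, v)` -/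
theorem seg_L {h v x : ℝ × ℝ}
    (hx : x ∈ segment ℝ h (v.1, h.2) ∪ segment ℝ (v.1, h.2) v) :
    (x.2 = h.2 ∧ ((h.1 ≤ x.1 ∧ x.1 ≤ v.1) ∨ (v.1 ≤ x.1 ∧ x.1 ≤ h.1))) ∨
    (x.1 = v.1 ∧ ((h.2 ≤ x.2 ∧ x.2 ≤ v.2) ∨ (v.2 ≤ x.2 ∧ x.2 ≤ h.2))) := by
  rcases hx with hx | hx
  · left
    obtain ⟨⟨h1, h2⟩, h3, h4⟩ := seg_box hx
    simp only [min_self, max_self] at h1 h2 h3 h4
    refine ⟨le_antisymm h4 h3, ?_⟩
    rcases le_total h.1 v.1 with h | h
    · rw [min_eq_left h] at h1; rw [max_eq_right h] at h2; exact Or.inl ⟨h1, h2⟩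
    · rw [min_eq_right h] at h1; rw [max_eq_left h] at h2; exact Or.inr ⟨h1, h2⟩
  · right
    obtain ⟨⟨h1, h2⟩, h3, h4⟩ := seg_box hx
    simp only [min_self, max_self] at h1 h2 h3 h4
    refine ⟨le_antisymm h2 h1, ?_⟩
    rcases le_total h.2 v.2 with h | h
    · rw [min_eq_left h] at h3; rw [max_eq_right h] at h4; exact Or.inl ⟨h3, h4⟩
    · rw [min_eq_right h] at h3; rw [max_eq_left h] at h4; exact Or.inr ⟨h3, h4⟩

/-- a vertex in general position to `h`, `v` is not on the edge -/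
theorem not_on_edge {h v x : ℝ × ℝ} (h1 : x.1 ≠ v.1) (h2 : x.2 ≠ h.2) :
    x ∉ segment ℝ h (v.1, h.2) ∪ segment ℝ (v.1, h.2) v := by
  intro hx
  rcases seg_L hx with h | h
  · exact h2 h.1
  · exact h1 h.1

theorem meet_HV {a b c d x : ℝ × ℝ}
    (hab : a.1 ≠ b.1 ∧ a.2 ≠ b.2) (hcd : c.1 ≠ d.1 ∧ c.2 ≠ d.2)
    (hac : a = c ∨ (a.1 ≠ c.1 ∧ a.2 ≠ c.2)) (had : a = d ∨ (a.1 ≠ d.1 ∧ a.2 ≠ d.2))
    (hbd : b = d ∨ (b.1 ≠ d.1 ∧ b.2 ≠ d.2))
    (hN : NC (a, b) (c, d))
    (hx1 : x.2 = a.2 ∧ ((a.1 ≤ x.1 ∧ x.1 ≤ b.1) ∨ (b.1 ≤ x.1 ∧ x.1 ≤ a.1)))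
    (hx2 : x.1 = d.1 ∧ ((c.2 ≤ x.2 ∧ x.2 ≤ d.2) ∨ (d.2 ≤ x.2 ∧ x.2 ≤ c.2))) :
    x = a ∧ x = d := by
  obtain ⟨a1, a2⟩ := a
  obtain ⟨b1, b2⟩ := b
  obtain ⟨c1, c2⟩ := c
  obtain ⟨d1, d2⟩ := d
  obtain ⟨x1, x2⟩ := x
  unfold NC Cross at hN
  simp only [Prod.mk.injEq] at *
  obtain ⟨n1, n2, n3, n4⟩ := hN
  clear n4
  obtain ⟨rfl, k1⟩ := hx1
  obtain ⟨rfl, k2⟩ := hx2
  by_cases e1 : a1 = x1
  · rcases had with h | h
    · exact ⟨⟨e1.symm, rfl⟩, rfl, h.2⟩
    · exact absurd e1 h.1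
  · exfalso
    rcases had with h | h
    · exact e1 h.1
    by_cases e2 : b1 = x1
    · rcases hbd with hb | hb
      · obtain ⟨rfl, rfl⟩ := hb
        have n2 := n2 rfl
        grind
      · exact hb.1 e2
    · by_cases e3 : x2 = c2
      · rcases hac with ha | ha
        · obtain ⟨rfl, rfl⟩ := ha
          have n1 := n1 rfl
          grind
        · exact ha.2 e3
      · apply n3
        constructor
        · rcases k1 with k1 | k1
          · left; exact ⟨lt_of_le_of_ne k1.1 e1, lt_of_le_of_ne k1.2 (Ne.symm e2)⟩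
          · right; exact ⟨lt_of_le_of_ne k1.1 e2, lt_of_le_of_ne k1.2 (Ne.symm e1)⟩
        · rcases k2 with k2 | k2
          · right; exact ⟨lt_of_le_of_ne k2.1 (Ne.symm e3), lt_of_le_of_ne k2.2 h.2⟩
          · left; exact ⟨lt_of_le_of_ne k2.1 (Ne.symm h.2), lt_of_le_of_ne k2.2 e3⟩

theorem edges_meet {a b c d x : ℝ × ℝ}
    (hab : a.1 ≠ b.1 ∧ a.2 ≠ b.2) (hcd : c.1 ≠ d.1 ∧ c.2 ≠ d.2)
    (hac : a = c ∨ (a.1 ≠ c.1 ∧ a.2 ≠ c.2)) (had : a = d ∨ (a.1 ≠ d.1 ∧ a.2 ≠ d.2))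
    (hbc : b = c ∨ (b.1 ≠ c.1 ∧ b.2 ≠ c.2)) (hbd : b = d ∨ (b.1 ≠ d.1 ∧ b.2 ≠ d.2))
    (hN : NC (a, b) (c, d))
    (hx1 : x ∈ segment ℝ a (b.1, a.2) ∪ segment ℝ (b.1, a.2) b)
    (hx2 : x ∈ segment ℝ c (d.1, c.2) ∪ segment ℝ (d.1, c.2) d) :
    (x = a ∨ x = b) ∧ (x = c ∨ x = d) := by
  have k1 := seg_L hx1
  have k2 := seg_L hx2
  clear hx1 hx2
  rcases k1 with k1 | k1
  · rcases k2 with k2 | k2
    · obtain ⟨a1, a2⟩ := a
      obtain ⟨b1, b2⟩ := b
      obtain ⟨c1, c2⟩ := c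
      obtain ⟨d1, d2⟩ := d
      obtain ⟨x1, x2⟩ := x
      unfold NC Cross at hN
      simp only [Prod.mk.injEq] at *
      obtain ⟨n1, n2, n3, n4⟩ := hN
      clear n2 n3 n4 hbd hbc had
      obtain ⟨rfl, k1⟩ := k1
      obtain ⟨rfl, k2⟩ := k2
      grind
    · have := meet_HV hab hcd hac had hbd hN k1 k2
      exact ⟨Or.inl this.1, Or.inr this.2⟩
  · rcases k2 with k2 | k2
    · have hac' : c = a ∨ (c.1 ≠ a.1 ∧ c.2 ≠ a.2) := by
        rcases hac with h | h
        · exact Or.inl h.symm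
        · exact Or.inr ⟨h.1.symm, h.2.symm⟩
      have hbc' : c = b ∨ (c.1 ≠ b.1 ∧ c.2 ≠ b.2) := by
        rcases hbc with h | h
        · exact Or.inl h.symm
        · exact Or.inr ⟨h.1.symm, h.2.symm⟩
      have hbd' : d = b ∨ (d.1 ≠ b.1 ∧ d.2 ≠ b.2) := by
        rcases hbd with h | h
        · exact Or.inl h.symm
        · exact Or.inr ⟨h.1.symm, h.2.symm⟩
      have := meet_HV hcd hab hac' hbc' hbd' hN.symm k2 k1
      exact ⟨Or.inr this.2, Or.inl this.1⟩
    · obtain ⟨a1, a2⟩ := a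
      obtain ⟨b1, b2⟩ := b
      obtain ⟨c1, c2⟩ := c
      obtain ⟨d1, d2⟩ := d
      obtain ⟨x1, x2⟩ := x
      unfold NC Cross at hN
      simp only [Prod.mk.injEq] at *
      obtain ⟨n1, n2, n3, n4⟩ := hN
      clear n1 n3 n4 hac hbc had
      obtain ⟨rfl, k1⟩ := k1
      obtain ⟨rfl, k2⟩ := k2
      grind

/-- rank of a point in a finite set, coordinatewise -/
noncomputable def rk (P : Finset (ℝ × ℝ)) (q : ℝ × ℝ) : Pt :=
  (((P.filter (fun p => p.1 < q.1)).card : ℤ), ((P.filter (fun p => p.2 < q.2)).card : ℤ))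

theorem rk_lt1 {P : Finset (ℝ × ℝ)} {q q' : ℝ × ℝ} (hq : q ∈ P) (h : q.1 < q'.1) :
    (rk P q).1 < (rk P q').1 := by
  simp only [rk, Nat.cast_lt]
  apply Finset.card_lt_card
  refine ⟨?_, ?_⟩
  · intro p hp
    simp only [Finset.mem_filter] at *
    exact ⟨hp.1, hp.2.trans h⟩
  · intro hsub
    have : q ∈ P.filter (fun p => p.1 < q'.1) := by simp [hq, h]
    have := hsub this
    simp at this

theorem rk_lt2 {P : Finset (ℝ × ℝ)} {q q' : ℝ × ℝ} (hq : q ∈ P) (h : q.2 < q'.2) :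
    (rk P q).2 < (rk P q').2 := by
  simp only [rk, Nat.cast_lt]
  apply Finset.card_lt_card
  refine ⟨?_, ?_⟩
  · intro p hp
    simp only [Finset.mem_filter] at *
    exact ⟨hp.1, hp.2.trans h⟩
  · intro hsub
    have : q ∈ P.filter (fun p => p.2 < q'.2) := by simp [hq, h]
    have := hsub this
    simp at this

theorem rk_lt1_iff {P : Finset (ℝ × ℝ)} {q q' : ℝ × ℝ} (hq : q ∈ P) (hq' : q' ∈ P) :
    (rk P q).1 < (rk P q').1 ↔ q.1 < q'.1 := by
  constructor
  · intro h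
    rcases lt_trichotomy q.1 q'.1 with h' | h' | h'
    · exact h'
    · simp only [rk, h', lt_self_iff_false] at h
    · have := rk_lt1 hq' h'; omega
  · exact rk_lt1 hq

theorem rk_lt2_iff {P : Finset (ℝ × ℝ)} {q q' : ℝ × ℝ} (hq : q ∈ P) (hq' : q' ∈ P) :
    (rk P q).2 < (rk P q').2 ↔ q.2 < q'.2 := by
  constructor
  · intro h
    rcases lt_trichotomy q.2 q'.2 with h' | h' | h'
    · exact h'
    · simp only [rk, h', lt_self_iff_false] at h
    · have := rk_lt2 hq' h'; omega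
  · exact rk_lt2 hq

theorem rk_eq1_iff {P : Finset (ℝ × ℝ)} {q q' : ℝ × ℝ} (hq : q ∈ P) (hq' : q' ∈ P) :
    (rk P q).1 = (rk P q').1 ↔ q.1 = q'.1 := by
  constructor
  · intro h
    rcases lt_trichotomy q.1 q'.1 with h' | h' | h'
    · have := rk_lt1 (q' := q') hq h'; omega
    · exact h'
    · have := rk_lt1 (q' := q) hq' h'; omega
  · intro h; simp only [rk, h]

theorem rk_eq2_iff {P : Finset (ℝ × ℝ)} {q q' : ℝ × ℝ} (hq : q ∈ P) (hq' : q' ∈ P) :
    (rk P q).2 = (rk P q').2 ↔ q.2 = q'.2 := by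
  constructor
  · intro h
    rcases lt_trichotomy q.2 q'.2 with h' | h' | h'
    · have := rk_lt2 (q' := q') hq h'; omega
    · exact h'
    · have := rk_lt2 (q' := q) hq' h'; omega
  · intro h; simp only [rk, h]

theorem extract {n : ℕ} (T : SimpleGraph (Fin n)) (t : BT (Fin n)) (hnd : t.labels.Nodup)
    (hall : ∀ v, v ∈ t.labels) (hadj : ∀ u v, T.Adj u v → (u, v) ∈ t.ipcs ∨ (v, u) ∈ t.ipcs)
    (hB : BD t) (P : Finset (ℝ × ℝ)) (hPn : P.card = n)
    (hP : ∀ p ∈ P, ∀ q ∈ P, p ≠ q → p.1 ≠ q.1 ∧ p.2 ≠ q.2) :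
    ∃ (f : Fin n → ℝ × ℝ) (c : Fin n → Fin n → ℝ × ℝ),
      Function.Injective f ∧ (∀ i, f i ∈ P) ∧
      (∀ u v, T.Adj u v → c u v = c v u ∧
          (c u v = ((f u).1, (f v).2) ∨ c u v = ((f v).1, (f u).2))) ∧
      (∀ u v w, T.Adj u v → w ≠ u → w ≠ v →
          f w ∉ segment ℝ (f u) (c u v) ∪ segment ℝ (c u v) (f v)) ∧
      (∀ u v u' v', T.Adj u v → T.Adj u' v' →
          ¬ (u = u' ∧ v = v') → ¬ (u = v' ∧ v = u') →
          (segment ℝ (f u) (c u v) ∪ segment ℝ (c u v) (f v)) ∩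
            (segment ℝ (f u') (c u' v') ∪ segment ℝ (c u' v') (f v'))
            ⊆ ({f u, f v} ∩ {f u', f v'} : Set (ℝ × ℝ))) := by
  classical
  have hlen : ∀ s : BT (Fin n), s.size = s.labels.length := by
    intro s
    induction s with
    | nil => rfl
    | node a l r hl hr =>
      simp only [BT.size, BT.labels, List.length_cons, List.length_append, hl, hr]
  have hsize : t.size = n := by
    rw [hlen]
    have h1 : t.labels.toFinset = Finset.univ := by ext v; simp [hall v]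
    have h2 := List.toFinset_card_of_nodup hnd
    rw [h1] at h2
    simpa using h2.symm
  have hinj : Set.InjOn (rk P) (P : Set (ℝ × ℝ)) := by
    intro q hq q' hq' h
    by_contra hne
    have h1 := (rk_eq1_iff hq hq').mp (by rw [h])
    exact (hP q hq q' hq' hne).1 h1
  have hcR : (P.image (rk P)).card = t.size := by
    rw [Finset.card_image_of_injOn hinj, hPn, hsize]
  have hpos : ∀ q, 0 ≤ (rk P q).1 ∧ 0 ≤ (rk P q).2 := fun q => by simp [rk]
  have hGP : GP (insert (-1, -1) (P.image (rk P))) := by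
    intro a ha b hb hab
    rcases Finset.mem_insert.mp ha with rfl | ha
    · rcases Finset.mem_insert.mp hb with rfl | hb
      · exact absurd rfl hab
      · obtain ⟨q, _, rfl⟩ := Finset.mem_image.mp hb
        have := hpos q; constructor <;> simp only <;> omega
    · rcases Finset.mem_insert.mp hb with rfl | hb
      · obtain ⟨q, _, rfl⟩ := Finset.mem_image.mp ha
        have := hpos q; constructor <;> simp only <;> omega
      · obtain ⟨q, hq, rfl⟩ := Finset.mem_image.mp ha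
        obtain ⟨q', hq', rfl⟩ := Finset.mem_image.mp hb
        have hne : q ≠ q' := fun h => hab (by rw [h])
        have := hP q hq q' hq' hne
        rw [Ne, Ne, rk_eq1_iff hq hq', rk_eq2_iff hq hq']
        exact this
  obtain ⟨D, h1, h2, h3, h4, h5⟩ := hB (-1, -1) (P.image (rk P)) hcR hGP (by
    intro q hq
    obtain ⟨w, _, rfl⟩ := Finset.mem_image.mp hq
    have := hpos w; simp only; omega)
  obtain ⟨pos, hpos'⟩ := DT.exists_rep D (by rw [h1]; exact hnd)
  have hpts := DT.Rep.pts D hpos'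
  rw [h1] at hpts
  have hposinj : Function.Injective pos := by
    intro u v huv
    rw [hpts] at h2
    exact List.inj_on_of_nodup_map h2 (hall u) (hall v) huv
  have hposR : ∀ v, pos v ∈ P.image (rk P) := by
    intro v
    rw [← h3, List.mem_toFinset, hpts]
    exact List.mem_map_of_mem (hall v)
  have hf : ∀ v, ∃ q ∈ P, rk P q = pos v := fun v => Finset.mem_image.mp (hposR v)
  choose f hfP hfr using hf
  have hfinj : Function.Injective f := by
    intro u v huv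
    apply hposinj
    rw [← hfr, ← hfr, huv]
  have lt1 : ∀ u v, (pos u).1 < (pos v).1 ↔ (f u).1 < (f v).1 := by
    intro u v; rw [← hfr, ← hfr]; exact rk_lt1_iff (hfP u) (hfP v)
  have lt2 : ∀ u v, (pos u).2 < (pos v).2 ↔ (f u).2 < (f v).2 := by
    intro u v; rw [← hfr, ← hfr]; exact rk_lt2_iff (hfP u) (hfP v)
  have eq1 : ∀ u v, (pos u).1 = (pos v).1 ↔ (f u).1 = (f v).1 := by
    intro u v; rw [← hfr, ← hfr]; exact rk_eq1_iff (hfP u) (hfP v)
  have eq2 : ∀ u v, (pos u).2 = (pos v).2 ↔ (f u).2 = (f v).2 := by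
    intro u v; rw [← hfr, ← hfr]; exact rk_eq2_iff (hfP u) (hfP v)
  have hNC : ∀ a b c d, NC (pos a, pos b) (pos c, pos d) → NC (f a, f b) (f c, f d) := by
    intro a b c d h
    unfold NC Cross at *
    simpa only [lt1, lt2, eq1, eq2] using h
  have hgp : ∀ u v, f u = f v ∨ ((f u).1 ≠ (f v).1 ∧ (f u).2 ≠ (f v).2) := by
    intro u v
    by_cases h : f u = f v
    · exact Or.inl h
    · exact Or.inr (hP _ (hfP u) _ (hfP v) h)
  set E := D.edges (-1, -1) with hE
  have hEadj : ∀ u v, T.Adj u v → (pos u, pos v) ∈ E ∨ (pos v, pos u) ∈ E := by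
    intro u v huv
    rcases hadj u v huv with h | h
    · rw [← h1] at h
      obtain ⟨o, ho⟩ := DT.Rep.iedges D hpos' (-1, -1) _ h
      cases o
      · right; simpa [DT.mk] using ho
      · left; simpa [DT.mk] using ho
    · rw [← h1] at h
      obtain ⟨o, ho⟩ := DT.Rep.iedges D hpos' (-1, -1) _ h
      cases o
      · left; simpa [DT.mk] using ho
      · right; simpa [DT.mk] using ho
  let C : Fin n → Fin n → ℝ × ℝ := fun u v =>
    if (pos u, pos v) ∈ E then ((f v).1, (f u).2) else ((f u).1, (f v).2)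
  let c : Fin n → Fin n → ℝ × ℝ := fun u v => if u < v then C u v else C v u
  have hc : ∀ u v, T.Adj u v → ∃ h w, (pos h, pos w) ∈ E ∧ ((h = u ∧ w = v) ∨ (h = v ∧ w = u)) ∧
      c u v = ((f w).1, (f h).2) := by
    intro u v huv
    by_cases hlt : u < v
    · by_cases hin : (pos u, pos v) ∈ E
      · exact ⟨u, v, hin, Or.inl ⟨rfl, rfl⟩, by simp [c, C, hlt, hin]⟩
      · have := (hEadj u v huv).resolve_left hin
        exact ⟨v, u, this, Or.inr ⟨rfl, rfl⟩, by simp [c, C, hlt, hin]⟩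
    · by_cases hin : (pos v, pos u) ∈ E
      · exact ⟨v, u, hin, Or.inr ⟨rfl, rfl⟩, by simp [c, C, hlt, hin]⟩
      · have := (hEadj u v huv).resolve_right hin
        exact ⟨u, v, this, Or.inl ⟨rfl, rfl⟩, by simp [c, C, hlt, hin]⟩
  have hseg : ∀ u v, T.Adj u v → ∃ h w, (pos h, pos w) ∈ E ∧
      ((h = u ∧ w = v) ∨ (h = v ∧ w = u)) ∧
      segment ℝ (f u) (c u v) ∪ segment ℝ (c u v) (f v) =
        segment ℝ (f h) ((f w).1, (f h).2) ∪ segment ℝ ((f w).1, (f h).2) (f w) := by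
    intro u v huv
    obtain ⟨h, w, hm, hor, hcc⟩ := hc u v huv
    refine ⟨h, w, hm, hor, ?_⟩
    rw [hcc]
    rcases hor with ⟨rfl, rfl⟩ | ⟨rfl, rfl⟩
    · rfl
    · rw [Set.union_comm, segment_symm ℝ (f h), segment_symm ℝ _ (f w)]
  refine ⟨f, c, hfinj, hfP, ?_, ?_, ?_⟩
  · intro u v huv
    constructor
    · have hne : u ≠ v := huv.ne
      rcases lt_or_gt_of_ne hne with h | h
      · have h' : ¬ v < u := not_lt.mpr h.le
        simp [c, h, h']
      · have h' : ¬ u < v := not_lt.mpr h.le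
        simp [c, h, h']
    · obtain ⟨h, w, hm, hor, hcc⟩ := hc u v huv
      rcases hor with ⟨rfl, rfl⟩ | ⟨rfl, rfl⟩
      · exact Or.inr hcc
      · exact Or.inl hcc
  · intro u v w huv hwu hwv
    obtain ⟨h, z, hm, hor, hcc⟩ := hseg u v huv
    rw [hcc]
    have hwh : w ≠ h := by rcases hor with ⟨rfl, rfl⟩ | ⟨rfl, rfl⟩ <;> assumption
    have hwz : w ≠ z := by rcases hor with ⟨rfl, rfl⟩ | ⟨rfl, rfl⟩ <;> assumption
    apply not_on_edge
    · rcases hgp w z with h' | h'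
      · exact absurd (hfinj h') hwz
      · exact h'.1
    · rcases hgp w h with h' | h'
      · exact absurd (hfinj h') hwh
      · exact h'.2
  · intro u v u' v' huv huv' hn1 hn2
    obtain ⟨h, z, hm, hor, hcc⟩ := hseg u v huv
    obtain ⟨h', z', hm', hor', hcc'⟩ := hseg u' v' huv'
    rw [hcc, hcc']
    have hne : ((pos h, pos z) : Pt × Pt) ≠ (pos h', pos z') := by
      intro he
      rw [Prod.mk.injEq] at he
      have e1 := hposinj he.1
      have e2 := hposinj he.2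
      rcases hor with ⟨rfl, rfl⟩ | ⟨rfl, rfl⟩ <;> rcases hor' with ⟨rfl, rfl⟩ | ⟨rfl, rfl⟩
      · exact hn1 ⟨e1, e2⟩
      · exact hn2 ⟨e1, e2⟩
      · exact hn2 ⟨e2, e1⟩
      · exact hn1 ⟨e2, e1⟩
    have : Std.Symm (α := Pt × Pt) NC := ⟨fun a b hab => NC.symm hab⟩
    have hN : NC (pos h, pos z) (pos h', pos z') :=
      List.Pairwise.forall h4 hm hm' hne
    have hN' := hNC _ _ _ _ hN
    have hhz : h ≠ z := by
      rcases hor with ⟨rfl, rfl⟩ | ⟨rfl, rfl⟩
      · exact huv.ne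
      · exact huv.ne.symm
    have hhz' : h' ≠ z' := by
      rcases hor' with ⟨rfl, rfl⟩ | ⟨rfl, rfl⟩
      · exact huv'.ne
      · exact huv'.ne.symm
    rintro x ⟨hx1, hx2⟩
    have hgne : ∀ a b, a ≠ b → (f a).1 ≠ (f b).1 ∧ (f a).2 ≠ (f b).2 := by
      intro a b hab
      rcases hgp a b with h | h
      · exact absurd (hfinj h) hab
      · exact h
    have := edges_meet (hgne h z hhz) (hgne h' z' hhz') (hgp _ _) (hgp _ _) (hgp _ _) (hgp _ _)
      hN' hx1 hx2
    simp only [Set.mem_inter_iff, Set.mem_insert_iff, Set.mem_singleton_iff]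
    rcases hor with ⟨rfl, rfl⟩ | ⟨rfl, rfl⟩ <;> rcases hor' with ⟨rfl, rfl⟩ | ⟨rfl, rfl⟩ <;> tauto

end Pool.Agent.Helper124
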