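import Pool.Agent.Helper124_LShape.Basic

set_option autoImplicit false

namespace Pool.Agent.Helper124

variable {V : Type}

/-- `p` to the left, straight connection -/
def CL (t : BT V) : Prop := ∀ (p : Pt) (R : Finset Pt), R.card = t.size → GP (insert p R) →
  (∀ q ∈ R, p.1 < q.1) → Emb t p R (fun o _ => o = true)

/-- `p` to the right, straight connection -/
def CR (t : BT V) : Prop := ∀ (p : Pt) (R : Finset Pt), R.card = t.size → GP (insert p R) →
  (∀ q ∈ R, q.1 < p.1) → Emb t p R (fun o _ => o = true)

/-- `p` below, straight connection -/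
def CB (t : BT V) : Prop := ∀ (p : Pt) (R : Finset Pt), R.card = t.size → GP (insert p R) →
  (∀ q ∈ R, p.2 < q.2) → Emb t p R (fun o _ => o = false)

/-- `p` to the left, ports right and down -/
def BD (t : BT V) : Prop := ∀ (p : Pt) (R : Finset Pt), R.card = t.size → GP (insert p R) →
  (∀ q ∈ R, p.1 < q.1) → Emb t p R (fun o z => o = true ∨ z.2 < p.2)

/-- `p` to the left, ports right and up -/
def BU (t : BT V) : Prop := ∀ (p : Pt) (R : Finset Pt), R.card = t.size → GP (insert p R) →
  (∀ q ∈ R, p.1 < q.1) → Emb t p R (fun o z => o = true ∨ p.2 < z.2)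

theorem gp_image {R : Finset Pt} (s : Sym) (h : GP R)
    (hs : ∀ a b : Pt, a.1 ≠ b.1 ∧ a.2 ≠ b.2 → (s.φ a).1 ≠ (s.φ b).1 ∧ (s.φ a).2 ≠ (s.φ b).2) :
    GP (R.image s.φ) := by
  intro a ha b hb hab
  obtain ⟨a', ha', rfl⟩ := Finset.mem_image.mp ha
  obtain ⟨b', hb', rfl⟩ := Finset.mem_image.mp hb
  exact hs _ _ (h a' ha' b' hb' (fun h => hab (by rw [h])))

theorem negX_gp {R : Finset Pt} (h : GP R) : GP (R.image negX.φ) :=
  gp_image negX h (fun a b hab => by simp only [negX]; omega)

theorem negY_gp {R : Finset Pt} (h : GP R) : GP (R.image negY.φ) :=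
  gp_image negY h (fun a b hab => by simp only [negY]; omega)

theorem tr_gp {R : Finset Pt} (h : GP R) : GP (R.image tr.φ) :=
  gp_image tr h (fun a b hab => by simp only [tr]; omega)

theorem CL.toCR {t : BT V} (h : CL t) : CR t := by
  intro p R hc hg hl
  have := h (negX.φ p) (R.image negX.φ) (by rw [Finset.card_image_of_injective _ negX.inj, hc])
    (by rw [← Finset.image_insert]; exact negX_gp hg)
    (by intro q hq; obtain ⟨w, hw, rfl⟩ := Finset.mem_image.mp hq
        have := hl w hw; simp only [negX]; omega)
  refine (this.sym).mono ?_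
  intro o z hz h; simpa [negX] using h

theorem CL.toCB {t : BT V} (h : CL t) : CB t := by
  intro p R hc hg hl
  have := h (tr.φ p) (R.image tr.φ) (by rw [Finset.card_image_of_injective _ tr.inj, hc])
    (by rw [← Finset.image_insert]; exact tr_gp hg)
    (by intro q hq; obtain ⟨w, hw, rfl⟩ := Finset.mem_image.mp hq
        have := hl w hw; simp only [tr]; omega)
  refine (this.sym).mono ?_
  intro o z hz h; simpa [tr] using h

theorem BD.toBU {t : BT V} (h : BD t) : BU t := by
  intro p R hc hg hl
  have := h (negY.φ p) (R.image negY.φ) (by rw [Finset.card_image_of_injective _ negY.inj, hc])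
    (by rw [← Finset.image_insert]; exact negY_gp hg)
    (by intro q hq; obtain ⟨w, hw, rfl⟩ := Finset.mem_image.mp hq
        have := hl w hw; simp only [negY]; omega)
  refine (this.sym).mono ?_
  intro o z hz h
  simp only [negY, Bool.false_xor] at h
  rcases h with h | h
  · exact Or.inl h
  · right; omega

theorem CL.toBD {t : BT V} (h : CL t) : BD t :=
  fun p R hc hg hl => (h p R hc hg hl).mono (fun _ _ _ h => Or.inl h)

/-- the `k` leftmost points -/
theorem exists_left {R : Finset Pt} (hg : GP R) (k : ℕ) (hk : k ≤ R.card) :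
    ∃ F ⊆ R, F.card = k ∧ ∀ a ∈ F, ∀ b ∈ R \ F, a.1 < b.1 := by
  induction k with
  | zero => exact ⟨∅, by simp, by simp, by simp⟩
  | succ k ih =>
    obtain ⟨F, hF, hc, hlt⟩ := ih (by omega)
    have hne : (R \ F).Nonempty := by
      rw [← Finset.card_pos, Finset.card_sdiff_of_subset hF]; omega
    obtain ⟨m, hm, hmin⟩ := Finset.exists_min_image (R \ F) (fun q => q.1) hne
    have hmR : m ∈ R := (Finset.mem_sdiff.mp hm).1
    have hmF : m ∉ F := (Finset.mem_sdiff.mp hm).2
    refine ⟨insert m F, ?_, by rw [Finset.card_insert_of_notMem hmF, hc], ?_⟩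
    · intro x hx
      rcases Finset.mem_insert.mp hx with rfl | hx
      · exact hmR
      · exact hF hx
    · intro a ha b hb
      have hbR := (Finset.mem_sdiff.mp hb).1
      have hb2 := (Finset.mem_sdiff.mp hb).2
      rw [Finset.mem_insert, not_or] at hb2
      have hb3 : b ∈ R \ F := Finset.mem_sdiff.mpr ⟨hbR, hb2.2⟩
      rcases Finset.mem_insert.mp ha with rfl | ha
      · have h1 := hmin b hb3
        have h2 := (hg a hmR b hbR (fun h => hb2.1 h.symm)).1
        omega
      · exact hlt a ha b hb3

theorem GP.d2 {S : Finset Pt} (hg : GP S) {x y : Pt} (hx : x ∈ S) (hy : y ∈ S) (h : x.1 < y.1) :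
    x.2 ≠ y.2 := (hg x hx y hy (fun e => by rw [e] at h; omega)).2

theorem GP.d1 {S : Finset Pt} (hg : GP S) {x y : Pt} (hx : x ∈ S) (hy : y ∈ S) (h : x.2 < y.2) :
    x.1 ≠ y.1 := (hg x hx y hy (fun e => by rw [e] at h; omega)).1

theorem step_unary {a : V} {H : BT V} (hD : BD H) (hU : BU H) :
    CL (BT.node a BT.nil H) := by
  intro p R hc hg hl
  simp only [BT.size, zero_add] at hc
  have hne : R.Nonempty := by rw [← Finset.card_pos]; omega
  obtain ⟨z, hz, hmin⟩ := Finset.exists_min_image R (fun q => q.1) hne
  have hpz := hl z hz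
  have hpR : p ∉ R := fun h => by have := hl p h; omega
  have hlt : ∀ q ∈ R.erase z, z.1 < q.1 := by
    intro q hq
    have hq' := Finset.mem_erase.mp hq
    have h1 := hmin q hq'.2
    have h2 := (hg z (by simp [hz]) q (by simp [hq'.2]) (fun h => hq'.1 h.symm)).1
    omega
  have hp2 : ∀ q ∈ R.erase z, p.2 ≠ q.2 := fun q hq =>
    hg.d2 (by simp) (by simp [(Finset.mem_erase.mp hq).2]) (by have := hlt q hq; omega)
  have hcz : (R.erase z).card = H.size := by rw [Finset.card_erase_of_mem hz]; omega
  have hgz : GP (insert z (R.erase z)) := by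
    rw [Finset.insert_erase hz]; exact hg.mono (Finset.subset_insert _ _)
  have hne2 : p.2 ≠ z.2 := (hg p (by simp) z (by simp [hz]) (fun h => hpR (h ▸ hz))).2
  rcases lt_or_gt_of_ne hne2 with h | h
  · -- z above p
    refine Emb.glue (A := ∅) (B := R.erase z) (z := z) true (Emb.nil z (fun _ _ => True))
      (hU z (R.erase z) hcz hgz hlt) ?_ (by simp) (by simp) (by simp) rfl
      (by simp) (by simp) ?_ ?_ (by simp) (by simp) (by simp) (by simp)
    · simp [Finset.insert_erase hz]
    · intro x hx y hy
      have := hlt x hx; have := hlt y hy; have := hp2 x hx; have := hp2 y hy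
      unfold NC Cross DT.mk; simp only [if_true]; omega
    · intro x hx u hu
      have := hlt x hx; have := hp2 x hx
      cases u
      · have hu : z.2 < x.2 := by simpa using hu
        unfold NC Cross DT.mk; simp; omega
      · unfold NC Cross DT.mk; simp; omega
  · refine Emb.glue (A := ∅) (B := R.erase z) (z := z) true (Emb.nil z (fun _ _ => True))
      (hD z (R.erase z) hcz hgz hlt) ?_ (by simp) (by simp) (by simp) rfl
      (by simp) (by simp) ?_ ?_ (by simp) (by simp) (by simp) (by simp)
    · simp [Finset.insert_erase hz]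
    · intro x hx y hy
      have := hlt x hx; have := hlt y hy; have := hp2 x hx; have := hp2 y hy
      unfold NC Cross DT.mk; simp only [if_true]; omega
    · intro x hx u hu
      have := hlt x hx; have := hp2 x hx
      cases u
      · have hu : x.2 < z.2 := by simpa using hu
        unfold NC Cross DT.mk; simp; omega
      · unfold NC Cross DT.mk; simp; omega

theorem step_binary {a : V} {G H : BT V} (hR : CR G) (hB : CB G) (hD : BD H) (hU : BU H) :
    BD (BT.node a G H) := by
  intro p R hc hg hl
  simp only [BT.size] at hc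
  have hgR : GP R := hg.mono (Finset.subset_insert _ _)
  have hpR : p ∉ R := fun h => by have := hl p h; omega
  obtain ⟨F, hFR, hFc, hFl⟩ := exists_left hgR (G.size + 1) (by omega)
  have hF0 : F.Nonempty := by rw [← Finset.card_pos]; omega
  have hcB : (R \ F).card = H.size := by rw [Finset.card_sdiff_of_subset hFR]; omega
  by_cases hcase : ∃ q ∈ F, q.2 < p.2
  · -- a point below p
    obtain ⟨z, hz, hmin⟩ := Finset.exists_min_image F (fun q => q.2) hF0
    have hzp : z.2 < p.2 := by
      obtain ⟨q, hq, hqp⟩ := hcase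
      have := hmin q hq; omega
    have hzR := hFR hz
    have hpz := hl z hzR
    have hA : ∀ x ∈ F.erase z, p.1 < x.1 ∧ z.2 < x.2 ∧ x.1 ≠ z.1 ∧ x.2 ≠ p.2 := by
      intro x hx
      have hx' := Finset.mem_erase.mp hx
      have h1 := hmin x hx'.2
      have h2 := (hgR z hzR x (hFR hx'.2) (fun h => hx'.1 h.symm))
      have h3 := hg.d2 (x := p) (y := x) (by simp) (by simp [hFR hx'.2]) (hl x (hFR hx'.2))
      exact ⟨hl x (hFR hx'.2), by omega, h2.1.symm, h3.symm⟩
    have hBl : ∀ x ∈ R \ F, z.1 < x.1 ∧ x.2 ≠ z.2 ∧ x.2 ≠ p.2 := fun x hx =>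
      ⟨hFl z hz x hx, (hgR.d2 hzR (Finset.mem_sdiff.mp hx).1 (hFl z hz x hx)).symm,
        (hg.d2 (x := p) (y := x) (by simp) (by simp [(Finset.mem_sdiff.mp hx).1])
          (hl x (Finset.mem_sdiff.mp hx).1)).symm⟩
    have hAB : ∀ x ∈ F.erase z, ∀ y ∈ R \ F, x.1 < y.1 ∧ x.2 ≠ y.2 :=
      fun x hx y hy => ⟨hFl x (Finset.mem_erase.mp hx).2 y hy,
        hgR.d2 (hFR (Finset.mem_erase.mp hx).2) (Finset.mem_sdiff.mp hy).1
          (hFl x (Finset.mem_erase.mp hx).2 y hy)⟩
    refine Emb.glue (A := F.erase z) (B := R \ F) (z := z) false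
      (hB z (F.erase z) (by rw [Finset.card_erase_of_mem hz]; omega) ?_
        (fun x hx => (hA x hx).2.1))
      (hD z (R \ F) hcB ?_ (fun x hx => (hBl x hx).1)) ?_ (by simp) ?_ ?_ (Or.inr hzp) ?_ ?_ ?_ ?_ ?_ ?_ ?_ ?_
    · rw [Finset.insert_erase hz]; exact hgR.mono hFR
    · apply hgR.mono
      intro x hx
      rcases Finset.mem_insert.mp hx with rfl | hx
      · exact hzR
      · exact (Finset.mem_sdiff.mp hx).1
    · rw [← Finset.insert_union, Finset.insert_erase hz, Finset.union_sdiff_of_subset hFR]
    · simp [hz]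
    · exact Finset.disjoint_of_subset_left (Finset.erase_subset _ _) Finset.disjoint_sdiff
    · intro x hx y hy
      have := hA x hx; have := hA y hy
      unfold NC Cross DT.mk; simp only [Bool.false_eq_true, if_false]; omega
    · rintro x hx u rfl
      have := hA x hx
      unfold NC Cross DT.mk; simp only [Bool.false_eq_true, if_false]; omega
    · intro x hx y hy
      have := hBl x hx; have := hBl y hy
      unfold NC Cross DT.mk; simp only [Bool.false_eq_true, if_false]; omega
    · intro x hx u hu
      have := hBl x hx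
      cases u
      · have hu : x.2 < z.2 := by simpa using hu
        unfold NC Cross DT.mk; simp only [Bool.false_eq_true, if_false]; omega
      · unfold NC Cross DT.mk; simp only [Bool.false_eq_true, if_false, if_true]; omega
    · intro x hx y hy x' hx' y' hy'
      have := hAB x hx x' hx'; have := hAB y hy x' hx'
      have := hAB x hx y' hy'; have := hAB y hy y' hy'
      unfold NC Cross; simp only; omega
    · intro x hx y hy x' hx' u hu
      have := hAB x hx x' hx'; have := hAB y hy x' hx'
      have := hA x hx; have := hA y hy; have := hBl x' hx'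
      cases u
      · have hu : x'.2 < z.2 := by simpa using hu
        unfold NC Cross DT.mk; simp only [Bool.false_eq_true, if_false]; omega
      · unfold NC Cross DT.mk; simp only [if_true]; omega
    · rintro x hx u rfl x' hx' y' hy'
      have := hAB x hx x' hx'; have := hAB x hx y' hy'
      have := hA x hx; have := hBl x' hx'; have := hBl y' hy'
      unfold NC Cross DT.mk; simp only [Bool.false_eq_true, if_false]; omega
    · rintro x hx u rfl x' hx' u' hu'
      have := hAB x hx x' hx'
      have := hA x hx; have := hBl x' hx'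
      cases u'
      · have hu : x'.2 < z.2 := by simpa using hu'
        unfold NC Cross DT.mk; simp only [Bool.false_eq_true, if_false]; omega
      · unfold NC Cross DT.mk; simp only [Bool.false_eq_true, if_false, if_true]; omega
  · -- all of F above p
    push Not at hcase
    obtain ⟨z, hz, hmax⟩ := Finset.exists_max_image F (fun q => q.1) hF0
    have hzR := hFR hz
    have hpz := hl z hzR
    have habove : ∀ x ∈ F, p.2 < x.2 := by
      intro x hx
      have h1 := hcase x hx
      have h2 := (hg p (by simp) x (by simp [hFR hx]) (fun h => hpR (h ▸ hFR hx))).2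
      omega
    have hzp := habove z hz
    have hA : ∀ x ∈ F.erase z, p.1 < x.1 ∧ p.2 < x.2 ∧ x.1 < z.1 ∧ x.2 ≠ z.2 := by
      intro x hx
      have hx' := Finset.mem_erase.mp hx
      have h1 := hmax x hx'.2
      have h2 := (hgR z hzR x (hFR hx'.2) (fun h => hx'.1 h.symm))
      exact ⟨hl x (hFR hx'.2), habove x hx'.2, by omega, h2.2.symm⟩
    have hBl : ∀ x ∈ R \ F, z.1 < x.1 ∧ x.2 ≠ z.2 ∧ x.2 ≠ p.2 := fun x hx =>
      ⟨hFl z hz x hx, (hgR.d2 hzR (Finset.mem_sdiff.mp hx).1 (hFl z hz x hx)).symm,
        (hg.d2 (x := p) (y := x) (by simp) (by simp [(Finset.mem_sdiff.mp hx).1])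
          (hl x (Finset.mem_sdiff.mp hx).1)).symm⟩
    have hAB : ∀ x ∈ F.erase z, ∀ y ∈ R \ F, x.1 < y.1 ∧ x.2 ≠ y.2 :=
      fun x hx y hy => ⟨hFl x (Finset.mem_erase.mp hx).2 y hy,
        hgR.d2 (hFR (Finset.mem_erase.mp hx).2) (Finset.mem_sdiff.mp hy).1
          (hFl x (Finset.mem_erase.mp hx).2 y hy)⟩
    refine Emb.glue (A := F.erase z) (B := R \ F) (z := z) true
      (hR z (F.erase z) (by rw [Finset.card_erase_of_mem hz]; omega) ?_
        (fun x hx => (hA x hx).2.2.1))
      (hU z (R \ F) hcB ?_ (fun x hx => (hBl x hx).1)) ?_ (by simp) ?_ ?_ (Or.inl rfl) ?_ ?_ ?_ ?_ ?_ ?_ ?_ ?_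
    · rw [Finset.insert_erase hz]; exact hgR.mono hFR
    · apply hgR.mono
      intro x hx
      rcases Finset.mem_insert.mp hx with rfl | hx
      · exact hzR
      · exact (Finset.mem_sdiff.mp hx).1
    · rw [← Finset.insert_union, Finset.insert_erase hz, Finset.union_sdiff_of_subset hFR]
    · simp [hz]
    · exact Finset.disjoint_of_subset_left (Finset.erase_subset _ _) Finset.disjoint_sdiff
    · intro x hx y hy
      have := hA x hx; have := hA y hy
      unfold NC Cross DT.mk; simp only [if_true]; omega
    · rintro x hx u rfl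
      have := hA x hx
      unfold NC Cross DT.mk; simp only [if_true]; omega
    · intro x hx y hy
      have := hBl x hx; have := hBl y hy
      unfold NC Cross DT.mk; simp only [if_true]; omega
    · intro x hx u hu
      have := hBl x hx
      cases u
      · have hu : z.2 < x.2 := by simpa using hu
        unfold NC Cross DT.mk; simp only [Bool.false_eq_true, if_false, if_true]; omega
      · unfold NC Cross DT.mk; simp only [if_true]; omega
    · intro x hx y hy x' hx' y' hy'
      have := hAB x hx x' hx'; have := hAB y hy x' hx'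
      have := hAB x hx y' hy'; have := hAB y hy y' hy'
      unfold NC Cross; simp only; omega
    · intro x hx y hy x' hx' u hu
      have := hAB x hx x' hx'; have := hAB y hy x' hx'
      have := hA x hx; have := hA y hy; have := hBl x' hx'
      cases u
      · have hu : z.2 < x'.2 := by simpa using hu
        unfold NC Cross DT.mk; simp only [Bool.false_eq_true, if_false]; omega
      · unfold NC Cross DT.mk; simp only [if_true]; omega
    · rintro x hx u rfl x' hx' y' hy'
      have := hAB x hx x' hx'; have := hAB x hx y' hy'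
      have := hA x hx; have := hBl x' hx'; have := hBl y' hy'
      unfold NC Cross DT.mk; simp only [if_true]; omega
    · rintro x hx u rfl x' hx' u' hu'
      have := hAB x hx x' hx'
      have := hA x hx; have := hBl x' hx'
      cases u'
      · have hu : z.2 < x'.2 := by simpa using hu'
        unfold NC Cross DT.mk; simp only [Bool.false_eq_true, if_false, if_true]; omega
      · unfold NC Cross DT.mk; simp only [if_true]; omega

theorem CL.nil : CL (BT.nil : BT V) := by
  intro p R hc _ _
  have : R = ∅ := Finset.card_eq_zero.mp hc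
  subst this
  exact Emb.nil p _

theorem CL.swap {a : V} {l r : BT V} (h : CL (BT.node a l r)) : CL (BT.node a r l) :=
  fun p R hc hg hl => (h p R (by simp only [BT.size] at *; omega) hg hl).swap

theorem BD.swap {a : V} {l r : BT V} (h : BD (BT.node a l r)) : BD (BT.node a r l) :=
  fun p R hc hg hl => (h p R (by simp only [BT.size] at *; omega) hg hl).swap

theorem main_induct (t : BT V) (h : t.Cls) : BD t ∧ (t.thin → CL t) := by
  induction t with
  | nil => exact ⟨CL.nil.toBD, fun _ => CL.nil⟩
  | node a l r hl hr =>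
    obtain ⟨h1, h2, h3⟩ := h
    obtain ⟨l1, l2⟩ := hl h1
    obtain ⟨r1, r2⟩ := hr h2
    constructor
    · rcases h3 with h3 | h3
      · exact step_binary (l2 h3).toCR (l2 h3).toCB r1 r1.toBU
      · exact (step_binary (r2 h3).toCR (r2 h3).toCB l1 l1.toBU).swap
    · intro ht
      rcases ht with rfl | rfl
      · exact step_unary r1 r1.toBU
      · exact (step_unary l1 l1.toBU).swap

end Pool.Agent.Helper124
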